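import Pool.Agent.X321.LG.Main
import Pool.Agent.TH690.UE.Final
set_option autoImplicit false

/-!
The regulators on the curves `z + 1/z = c x² + t`, up to an error of the size `1 / |t|`.
-/

namespace Pool.Agent.X321.QF

open Polynomial Metric

open Pool.Agent.TH826.MK (Torus symb circ norm_circ contDiff_circ circ_add_one)

open Pool.Agent.TH826.HD Pool.Agent.TH826.UH

open Pool.Agent.TH690.UR (Disc abs_log_le)

open Pool.Agent.TH690.UE

open Pool.Agent.X321.LG (pr_near)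

open scoped Real

variable {K : Type*} [Field K] {s : K →+* ℂ} {c t : K} {m : ℂ}

theorem sepd_root (hm : s c * m ^ 2 + s t = 0) (ht : 4 ≤ ‖s t‖) :
    ∃ η, Sepd ((qf c t).map s) (fun j : Fin 2 => (![m, -m] : Fin 2 → ℂ) j)
      (2 / ‖s t‖ * ‖m‖) η := by
  have hT : 0 < ‖s t‖ := by linarith
  have hst : s t = -(s c * m ^ 2) := by linear_combination hm
  have hTn : ‖s t‖ = ‖s c‖ * ‖m‖ ^ 2 := by rw [hst, norm_neg, norm_mul, norm_pow]
  have hc0 : s c ≠ 0 := by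
    intro h
    rw [h, norm_zero, zero_mul] at hTn
    linarith
  have hm0 : 0 < ‖m‖ := by
    rw [norm_pos_iff]
    intro h
    rw [h, norm_zero, zero_pow two_ne_zero, mul_zero] at hTn
    linarith
  set ρ : ℝ := 2 / ‖s t‖ * ‖m‖ with hρ
  have hρ0 : 0 < ρ := by positivity
  have hρ2 : ρ ≤ ‖m‖ / 2 := by
    have h1 : 2 / ‖s t‖ ≤ 1 / 2 := by
      rw [div_le_div_iff₀ hT (by norm_num)]
      linarith
    calc ρ ≤ 1 / 2 * ‖m‖ := mul_le_mul_of_nonneg_right h1 hm0.le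
      _ = ‖m‖ / 2 := by ring
  have hsep : 2 < ‖s c‖ * (ρ * (2 * ‖m‖ - ρ)) := by
    have h1 : ‖s c‖ * (ρ * (2 * ‖m‖ - ρ)) = 4 - 4 / ‖s t‖ := by
      rw [hρ]
      have h2 : ‖s c‖ * (2 / ‖s t‖ * ‖m‖ * (2 * ‖m‖ - 2 / ‖s t‖ * ‖m‖)) =
          (‖s c‖ * ‖m‖ ^ 2) * (2 / ‖s t‖ * (2 - 2 / ‖s t‖)) := by ring
      rw [h2, ← hTn]
      field_simp
      ring
    rw [h1]
    have h3 : 4 / ‖s t‖ ≤ 1 := by
      rw [div_le_one hT]
      exact ht
    linarith
  refine ⟨‖s c‖ * (ρ * (2 * ‖m‖ - ρ)) - 2, ?_⟩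
  have h2p : ‖m - -m‖ = 2 * ‖m‖ := by
    rw [sub_neg_eq_add, ← two_mul, norm_mul, Complex.norm_ofNat]
  refine ⟨?_, by norm_num, hρ0, fun i j hij => ?_, fun j => ?_, by linarith, fun x hx => ?_⟩
  · rw [map_qf, natDegree_qf hc0]
  · fin_cases i <;> fin_cases j
    · exact absurd rfl hij
    · show 2 * ρ ≤ ‖m - -m‖
      rw [h2p]
      linarith
    · show 2 * ρ ≤ ‖-m - m‖
      rw [norm_sub_rev, h2p]
      linarith
    · exact absurd rfl hij
  · have h1 : ((qf c t).map s).eval m = 0 := by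
      rw [map_qf, eval_qf, hm]
    have h2 : ((qf c t).map s).eval (-m) = 0 := by
      rw [map_qf, eval_qf, neg_sq, hm]
    fin_cases j
    · show ‖((qf c t).map s).eval m‖ ≤ 2
      rw [h1, norm_zero]
      norm_num
    · show ‖((qf c t).map s).eval (-m)‖ ≤ 2
      rw [h2, norm_zero]
      norm_num
  · have hx0 : ρ ≤ ‖x - m‖ := hx 0
    have hx1 : ρ ≤ ‖x - -m‖ := hx 1
    have e1 : ((qf c t).map s).eval x = s c * ((x - m) * (x - -m)) := by
      rw [map_qf, eval_qf, hst]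
      ring
    have h3 : 2 * ‖m‖ ≤ ‖x - m‖ + ‖x - -m‖ := by
      rw [← h2p]
      have : m - -m = (x - -m) - (x - m) := by ring
      rw [this]
      refine (norm_sub_le _ _).trans ?_
      linarith
    have h4 : ρ * (2 * ‖m‖ - ρ) ≤ ‖x - m‖ * ‖x - -m‖ := by
      nlinarith [mul_nonneg (sub_nonneg.2 hx0) (sub_nonneg.2 hx1)]
    have h5 : ‖s c‖ * (ρ * (2 * ‖m‖ - ρ)) ≤ ‖s c * ((x - m) * (x - -m))‖ := by
      rw [norm_mul, norm_mul]
      exact mul_le_mul_of_nonneg_left h4 (norm_nonneg _)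
    rw [e1]
    linarith

/-- A special point is near one of the two roots. -/
theorem near_root (hm : s c * m ^ 2 + s t = 0) (ht : 4 ≤ ‖s t‖) {q : K}
    (hq : Spc s (c * q ^ 2 + t)) (hs : ‖s q - m‖ ≤ ‖s q + m‖) :
    ‖s q - m‖ ≤ 2 / ‖s t‖ * ‖m‖ ∧ ‖m‖ ≤ ‖s q + m‖ := by
  have hT : 0 < ‖s t‖ := by linarith
  have hst : s t = -(s c * m ^ 2) := by linear_combination hm
  have hTn : ‖s t‖ = ‖s c‖ * ‖m‖ ^ 2 := by rw [hst, norm_neg, norm_mul, norm_pow]
  have h1 : 2 * ‖m‖ ≤ ‖s q + m‖ + ‖s q - m‖ := by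
    have h2 : ‖(s q + m) - (s q - m)‖ ≤ ‖s q + m‖ + ‖s q - m‖ := norm_sub_le _ _
    have h3 : (s q + m) - (s q - m) = 2 * m := by ring
    rw [h3, norm_mul, Complex.norm_ofNat] at h2
    exact h2
  have h2 : ‖m‖ ≤ ‖s q + m‖ := by linarith
  refine ⟨?_, h2⟩
  obtain ⟨ζ, hζ, hζ'⟩ := hq
  have h3 : s c * ((s q - m) * (s q + m)) = ζ + ζ⁻¹ := by
    rw [← hζ', map_add, map_mul, map_pow, hst]
    ring
  have h4 : ‖s c‖ * (‖s q - m‖ * ‖s q + m‖) ≤ 2 := by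
    rw [← norm_mul, ← norm_mul, h3]
    refine (norm_add_le _ _).trans ?_
    rw [norm_inv, hζ]
    norm_num
  have h5 : ‖s c‖ * (‖s q - m‖ * ‖m‖) ≤ 2 := by
    refine le_trans ?_ h4
    exact mul_le_mul_of_nonneg_left (mul_le_mul_of_nonneg_left h2 (norm_nonneg _))
      (norm_nonneg _)
  have hm0 : 0 < ‖m‖ := by
    by_contra h
    have h6 : ‖m‖ = 0 := le_antisymm (not_lt.1 h) (norm_nonneg _)
    rw [h6, zero_pow two_ne_zero, mul_zero] at hTn
    linarith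
  rw [div_mul_eq_mul_div, le_div_iff₀ hT, hTn]
  have h6 : ‖s q - m‖ * (‖s c‖ * ‖m‖ ^ 2) = (‖s c‖ * (‖s q - m‖ * ‖m‖)) * ‖m‖ := by ring
  rw [h6]
  exact mul_le_mul_of_nonneg_right h5 hm0.le

/-- **The loop around the root `m`.** -/
theorem exists_loop_near (hm : s c * m ^ 2 + s t = 0) (ht : 4 ≤ ‖s t‖) :
    ∃ X Z : ℝ → ℂ, LoopOn s c t X Z ∧ ∀ q : K, Spc s (c * q ^ 2 + t) →
      ‖s q - m‖ ≤ ‖s q + m‖ →
      |dpr s X Z q - 2 * π * Real.log (4 * ‖s t‖)| ≤ 24 * π / ‖s t‖ := by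
  obtain ⟨η, H⟩ := sepd_root hm ht
  have hT : 0 < ‖s t‖ := by linarith
  set ρ : ℝ := 2 / ‖s t‖ * ‖m‖ with hρ
  obtain ⟨x, han, hdisc, hprod, -⟩ := H.exists_branches
  obtain ⟨R, hR, hRη⟩ := exists_radius H.eta
  have hR0 : 0 < R := one_pos.trans hR
  have hz := nz_circ hR0
  set u : ℝ → ℂ := fun t => circ R t + (circ R t)⁻¹ with hu
  have hucd : ContDiff ℝ 2 u := (contDiff_circ R).add ((contDiff_circ R).inv hz.ne_zero)
  have hub : ∀ t, u t ∈ ball (0 : ℂ) (2 + η) := by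
    intro t
    rw [mem_ball_zero_iff]
    refine (norm_add_le _ _).trans_lt ?_
    rw [norm_inv, norm_circ hR0.le]
    exact hRη
  have hper : ∀ t, u (t + 1) = u t := fun t => by
    simp only [hu, circ_add_one]
  set Y : ℝ → ℂ := fun y => x 0 (u y) with hY
  have hYcd : ContDiff ℝ 2 Y := by
    rw [contDiff_iff_contDiffAt]
    intro t
    exact ((han 0 _ (hub t)).contDiffAt.restrict_scalars ℝ).comp t hucd.contDiffAt
  have hYper : ∀ t, Y (t + 1) = Y t := fun t => by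
    simp only [hY, hper]
  have hYd : ∀ t, ‖Y t - m‖ < ρ := fun y => hdisc 0 _ (hub y)
  have hval : ∀ y, s c * Y y ^ 2 + s t = u y := by
    intro y
    have h1 := eval_map_sub (hprod _ (hub y)) (Y y)
    rw [Finset.prod_eq_zero (Finset.mem_univ 0) (by simp [hY]), mul_zero, eval₂_qf] at h1
    exact sub_eq_zero.1 h1
  have hdiff : ∀ w : K, ∀ ζ : ℂ, s (c * w ^ 2 + t) = ζ + ζ⁻¹ → ∀ y,
      s c * ((Y y - s w) * (Y y - s (-w))) = circ R y + (circ R y)⁻¹ - (ζ + ζ⁻¹) := by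
    intro w ζ hζ' y
    have h3 := hval y
    have h4 : u y = circ R y + (circ R y)⁻¹ := rfl
    rw [← h4, ← h3, ← hζ']
    simp only [map_add, map_mul, map_pow, map_neg]
    ring
  have hne : ∀ w : K, Spc s (c * w ^ 2 + t) → ∀ y, Y y ≠ s w := by
    intro w hw y h
    obtain ⟨ζ, hζ, hζ'⟩ := hw
    have h1 := hdiff w ζ hζ' y
    rw [h, sub_self, zero_mul, mul_zero] at h1
    exact (wn_joukowski hR hζ).1.ne_zero y h1.symm
  have hLoop : LoopOn s c t Y (circ R) := by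
    refine ⟨hYcd, hz, hYper, circ_add_one R, fun y => ?_, hne⟩
    rw [hval y]
    have h2 : circ R y * (circ R y)⁻¹ = 1 := mul_inv_cancel₀ (hz.ne_zero y)
    have h4 : u y = circ R y + (circ R y)⁻¹ := rfl
    rw [h4]
    linear_combination -h2
  refine ⟨Y, circ R, hLoop, fun q hq hs => ?_⟩
  have hst : s t = -(s c * m ^ 2) := by linear_combination hm
  have hTn : ‖s t‖ = ‖s c‖ * ‖m‖ ^ 2 := by rw [hst, norm_neg, norm_mul, norm_pow]
  have hc0 : s c ≠ 0 := by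
    intro h
    rw [h, norm_zero, zero_mul] at hTn
    linarith
  have hm0 : 0 < ‖m‖ := by
    have h1 := H.pos
    by_contra h
    have h6 : ‖m‖ = 0 := le_antisymm (not_lt.1 h) (norm_nonneg _)
    rw [hρ, h6, mul_zero] at h1
    exact lt_irrefl _ h1
  obtain ⟨hq1, hq2⟩ := near_root hm ht hq hs
  have hq' : Spc s (c * (-q) ^ 2 + t) := by rwa [neg_sq]
  have n1 : NZ fun y => Y y - s q := ⟨hYcd.sub contDiff_const, fun y => sub_ne_zero.2 (hne q hq y)⟩
  have n2 : NZ fun y => Y y - s (-q) :=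
    ⟨hYcd.sub contDiff_const, fun y => sub_ne_zero.2 (hne (-q) hq' y)⟩
  -- the sum of the two pairings
  have hsum : pr (circ R) (fun y => Y y - s q) + pr (circ R) (fun y => Y y - s (-q)) =
      2 * π * Real.log ‖s c‖ := by
    rw [← pr_mul hz n1 n2]
    have hcc : NZ fun _ : ℝ => s c := ⟨contDiff_const, fun _ => hc0⟩
    have h1 := pr_mul hz hcc (n1.mul n2)
    obtain ⟨ζ, hζ, hζ'⟩ := hq
    have h2 : pr (circ R) (fun y => s c * ((Y y - s q) * (Y y - s (-q)))) = 0 := by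
      rw [← pr_circ hR hζ]
      congr 1
      funext y
      exact hdiff q ζ hζ' y
    rw [h2, pr_const hR0] at h1
    linarith
  have hmq : ‖m - s (-q)‖ = ‖s q + m‖ := by
    rw [map_neg, sub_neg_eq_add, add_comm]
  have hρm : ρ ≤ 2 / ‖s t‖ * ‖m - s (-q)‖ := by
    rw [hmq, hρ]
    exact mul_le_mul_of_nonneg_left hq2 (by positivity)
  have he2 : 2 / ‖s t‖ ≤ 1 / 2 := by
    rw [div_le_div_iff₀ hT (by norm_num)]
    linarith
  have he0 : 0 < 2 / ‖s t‖ := by positivity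
  have hD : Disc Y m (s (-q)) ρ := ⟨hYcd, hYper, hYd, by
    refine hρm.trans ?_
    calc 2 / ‖s t‖ * ‖m - s (-q)‖ ≤ 1 * ‖m - s (-q)‖ :=
          mul_le_mul_of_nonneg_right (by linarith) (norm_nonneg _)
      _ = ‖m - s (-q)‖ := one_mul _⟩
  have h1 := pr_near hD hR0 (e := 2 / ‖s t‖) (by linarith) fun y => (hYd y).le.trans hρm
  rw [hmq] at h1
  have hpi := Real.pi_pos
  -- the logarithm of the sum
  have h2 : |Real.log ‖s q + m‖ - Real.log ‖2 * m‖| ≤ 2 / ‖s t‖ := by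
    have hm2 : (2 : ℂ) * m ≠ 0 := mul_ne_zero two_ne_zero (norm_pos_iff.1 hm0)
    have e1 : s q + m = (2 * m) * (1 + (s q - m) / (2 * m)) := by
      rw [mul_add, mul_div_cancel₀ _ hm2]
      ring
    have e2 : ‖(s q - m) / (2 * m)‖ ≤ 1 / ‖s t‖ := by
      rw [norm_div, norm_mul, Complex.norm_ofNat, div_le_iff₀ (by positivity)]
      refine hq1.trans (le_of_eq ?_)
      ring
    have e3 : (1 + (s q - m) / (2 * m)) ≠ 0 := by
      intro h0
      rw [h0, mul_zero] at e1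
      rw [e1, norm_zero] at hq2
      linarith
    have hT1 : 1 / ‖s t‖ ≤ 1 / 4 := one_div_le_one_div_of_le (by norm_num) ht
    have hT0 : 0 < 1 / ‖s t‖ := by positivity
    rw [e1, norm_mul, Real.log_mul (norm_ne_zero_iff.2 hm2) (norm_ne_zero_iff.2 e3),
      add_sub_cancel_left]
    refine (abs_log_le (by linarith) e2).trans ?_
    rw [div_le_iff₀ (by linarith)]
    have h5 : 2 / ‖s t‖ = 2 * (1 / ‖s t‖) := by ring
    rw [h5]
    nlinarith
  have h3 : 2 * π * (2 / ‖s t‖ / (1 - 2 / ‖s t‖)) ≤ 8 * π / ‖s t‖ := by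
    have h4 : 2 / ‖s t‖ / (1 - 2 / ‖s t‖) ≤ 2 * (2 / ‖s t‖) := by
      rw [div_le_iff₀ (by linarith)]
      nlinarith
    calc 2 * π * (2 / ‖s t‖ / (1 - 2 / ‖s t‖)) ≤ 2 * π * (2 * (2 / ‖s t‖)) :=
          mul_le_mul_of_nonneg_left h4 (by positivity)
      _ = 8 * π / ‖s t‖ := by ring
  have h4 : 2 * π * Real.log (4 * ‖s t‖) = 2 * π * Real.log ‖s c‖ +
      4 * π * Real.log ‖2 * m‖ := by
    have hcn : 0 < ‖s c‖ := norm_pos_iff.2 hc0
    have e1 : 4 * ‖s t‖ = ‖s c‖ * ‖2 * m‖ ^ 2 := by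
      rw [hTn, norm_mul, Complex.norm_ofNat]
      ring
    have hm2 : (0 : ℝ) < ‖2 * m‖ := by
      rw [norm_mul, Complex.norm_ofNat]
      positivity
    rw [e1, Real.log_mul hcn.ne' (pow_ne_zero _ hm2.ne'), Real.log_pow]
    push_cast
    ring
  have e1 : dpr s Y (circ R) q - 2 * π * Real.log (4 * ‖s t‖) =
      -(2 * (pr (circ R) (fun y => Y y - s (-q)) + 2 * π * Real.log ‖s q + m‖)) +
      4 * π * (Real.log ‖s q + m‖ - Real.log ‖2 * m‖) := by
    unfold dpr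
    rw [h4]
    linear_combination hsum
  rw [e1]
  refine (abs_add_le _ _).trans ?_
  rw [abs_neg, abs_mul, abs_of_pos (by norm_num : (0 : ℝ) < 2), abs_mul,
    abs_of_pos (by positivity : (0 : ℝ) < 4 * π)]
  have h5 : 4 * π * |Real.log ‖s q + m‖ - Real.log ‖2 * m‖| ≤ 4 * π * (2 / ‖s t‖) :=
    mul_le_mul_of_nonneg_left h2 (by positivity)
  have h6 : 24 * π / ‖s t‖ = 2 * (8 * π / ‖s t‖) + 4 * π * (2 / ‖s t‖) := by ring
  rw [h6]
  linarith [h1.trans h3]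

end Pool.Agent.X321.QF
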