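import Pool.Agent.X321.QF.Main
import Pool.Agent.TH265.U.Fld
set_option autoImplicit false

/-!
Two places.
-/

namespace Pool.Agent.X321.QF

open Polynomial

open Pool.Agent.TH826.MK (Torus symb)

open Pool.Agent.TH826.HD

open Pool.Agent.TH690.UE

open scoped Real

variable {K : Type*} [Field K]

/-- `1` if `p` is closer to `q` than to `-q` at the place `s`, and `-1` otherwise -/
noncomputable def side (s : K →+* ℂ) (p q : K) : ℝ :=
  if ‖s p - s q‖ ≤ ‖s p + s q‖ then 1 else -1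

/-- `2 π log (4 |t|)` at the place `s` -/
noncomputable def main (s : K →+* ℂ) (t : K) : ℝ := 2 * π * Real.log (4 * ‖s t‖)

/-- `24 π / |t|` at the place `s` -/
noncomputable def err (s : K →+* ℂ) (t : K) : ℝ := 24 * π / ‖s t‖

variable {s : K →+* ℂ} {c t p q : K}

theorem exists_root (hp : Spc s (c * p ^ 2 + t)) (ht : 5 ≤ ‖s t‖) :
    ∃ m : ℂ, s c * m ^ 2 + s t = 0 ∧ ‖s p - m‖ ≤ ‖s p + m‖ := by
  have hc0 : s c ≠ 0 := by
    intro h
    obtain ⟨ζ, hζ, hζ'⟩ := hp
    rw [map_add, map_mul, h, zero_mul, zero_add] at hζ'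
    have h1 : ‖s t‖ ≤ 2 := by
      rw [hζ']
      refine (norm_add_le _ _).trans ?_
      rw [norm_inv, hζ]
      norm_num
    linarith
  obtain ⟨m, hm⟩ := IsAlgClosed.exists_pow_nat_eq (-(s t) / s c) (n := 2) (by norm_num)
  have h1 : s c * m ^ 2 + s t = 0 := by
    rw [hm]
    field_simp
    ring
  by_cases h : ‖s p - m‖ ≤ ‖s p + m‖
  · exact ⟨m, h1, h⟩
  · refine ⟨-m, by rw [neg_sq]; exact h1, ?_⟩
    rw [sub_neg_eq_add, ← sub_eq_add_neg]
    exact (not_le.1 h).le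

theorem exists_torus_near (hp : Spc s (c * p ^ 2 + t)) (hq : Spc s (c * q ^ 2 + t))
    (ht : 5 ≤ ‖s t‖) :
    ∃ Γ : Torus (POpen (qf c t) (pts p q)) 1,
      (∀ θ (y : K), Γ.e θ (pcst (qf c t) (pts p q) y) = s y) ∧
      |Γ.reg (symb (pent (qf c t) (pts p q) 0 1)) - main s t| ≤ err s t ∧
      |Γ.reg (symb (pent (qf c t) (pts p q) 2 3)) - side s p q * main s t| ≤ err s t := by
  obtain ⟨m, hm, hpm⟩ := exists_root hp ht
  have ht4 : 4 ≤ ‖s t‖ := by linarith
  have hT : 0 < ‖s t‖ := by linarith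
  obtain ⟨X, Z, hL, hloop⟩ := exists_loop_near (c := c) hm ht4
  obtain ⟨Γ, h1, h2, h3⟩ := hL.torus hp hq
  obtain ⟨hp1, hp2⟩ := near_root hm ht4 hp hpm
  have hm0 : 0 < ‖m‖ := by
    by_contra h
    have h6 : ‖m‖ = 0 := le_antisymm (not_lt.1 h) (norm_nonneg _)
    rw [norm_eq_zero] at h6
    rw [h6, zero_pow two_ne_zero, mul_zero, zero_add] at hm
    rw [hm, norm_zero] at hT
    exact lt_irrefl _ hT
  have hsm : 2 / ‖s t‖ * ‖m‖ < ‖m‖ / 2 := by
    have h4 : 2 / ‖s t‖ ≤ 2 / 5 := div_le_div_of_nonneg_left (by norm_num) (by norm_num) ht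
    have h5 := mul_le_mul_of_nonneg_right h4 hm0.le
    linarith
  refine ⟨Γ, h1, ?_, ?_⟩
  · rw [h2]
    exact hloop p hp hpm
  · rw [h3]
    by_cases hqm : ‖s q - m‖ ≤ ‖s q + m‖
    · obtain ⟨hq1, hq2⟩ := near_root hm ht4 hq hqm
      have h4 : ‖s p - s q‖ ≤ ‖s p + s q‖ := by
        have e1 : ‖s p - s q‖ ≤ ‖s p - m‖ + ‖s q - m‖ := by
          have := norm_sub_le (s p - m) (s q - m)
          rwa [sub_sub_sub_cancel_right] at this
        have e2 : 2 * ‖m‖ ≤ ‖s p + s q‖ + (‖s p - m‖ + ‖s q - m‖) := by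
          have h5 : ‖(s p + s q) - ((s p - m) + (s q - m))‖ ≤
              ‖s p + s q‖ + ‖(s p - m) + (s q - m)‖ := norm_sub_le _ _
          have h6 : (s p + s q) - ((s p - m) + (s q - m)) = 2 * m := by ring
          rw [h6, norm_mul, Complex.norm_ofNat] at h5
          have h7 := norm_add_le (s p - m) (s q - m)
          linarith
        linarith
      unfold side
      rw [if_pos h4, one_mul]
      exact hloop q hq hqm
    · have hq' : Spc s (c * (-q) ^ 2 + t) := by rwa [neg_sq]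
      have hqm' : ‖s (-q) - m‖ ≤ ‖s (-q) + m‖ := by
        rw [map_neg, ← norm_neg (-(s q) - m), ← norm_neg (-(s q) + m)]
        have e1 : -(-(s q) - m) = s q + m := by ring
        have e2 : -(-(s q) + m) = s q - m := by ring
        rw [e1, e2]
        exact (not_le.1 hqm).le
      obtain ⟨hq1, hq2⟩ := near_root hm ht4 hq' hqm'
      have h4 : ¬‖s p - s q‖ ≤ ‖s p + s q‖ := by
        rw [not_le]
        have e1 : ‖s p + s q‖ ≤ ‖s p - m‖ + ‖s (-q) - m‖ := by
          have e0 : s p - s (-q) = s p + s q := by rw [map_neg, sub_neg_eq_add]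
          have := norm_sub_le (s p - m) (s (-q) - m)
          rwa [sub_sub_sub_cancel_right, e0] at this
        have e2 : 2 * ‖m‖ ≤ ‖s p - s q‖ + (‖s p - m‖ + ‖s (-q) - m‖) := by
          have h5 : ‖(s p - s q) - ((s p - m) + (s (-q) - m))‖ ≤
              ‖s p - s q‖ + ‖(s p - m) + (s (-q) - m)‖ := norm_sub_le _ _
          have h6 : (s p - s q) - ((s p - m) + (s (-q) - m)) = 2 * m := by
            rw [map_neg]
            ring
          rw [h6, norm_mul, Complex.norm_ofNat] at h5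
          have h7 := norm_add_le (s p - m) (s (-q) - m)
          linarith
        linarith
      unfold side
      rw [if_neg h4]
      have h5 := hloop (-q) hq' hqm'
      rw [dpr_neg] at h5
      have e3 : dpr s X Z q - -1 * main s t = -(-dpr s X Z q - main s t) := by ring
      rw [e3, abs_neg]
      exact h5

/-- The determinant. -/
theorem det_near {A0 A1 E0 E1 s0 s1 a b c d : ℝ} (hA0 : 0 ≤ A0) (hA1 : 0 ≤ A1)
    (hs0 : |s0| ≤ 1) (hs1 : |s1| ≤ 1)
    (ha : |a - A0| ≤ E0) (hb : |b - s0 * A0| ≤ E0) (hc : |c - A1| ≤ E1)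
    (hd : |d - s1 * A1| ≤ E1) :
    |a * d - b * c - (s1 - s0) * (A0 * A1)| ≤ 2 * (A0 * E1 + A1 * E0 + E0 * E1) := by
  have hE0 : 0 ≤ E0 := (abs_nonneg _).trans ha
  have hE1 : 0 ≤ E1 := (abs_nonneg _).trans hc
  have e : a * d - b * c - (s1 - s0) * (A0 * A1) =
      (A0 * (d - s1 * A1) - s0 * (A0 * (c - A1))) + (s1 * (A1 * (a - A0)) -
        A1 * (b - s0 * A0)) + ((a - A0) * (d - s1 * A1) - (b - s0 * A0) * (c - A1)) := by ring
  rw [e]
  have h1 : |A0 * (d - s1 * A1)| ≤ A0 * E1 := by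
    rw [abs_mul, abs_of_nonneg hA0]
    exact mul_le_mul_of_nonneg_left hd hA0
  have h2 : |s0 * (A0 * (c - A1))| ≤ A0 * E1 := by
    rw [abs_mul, abs_mul, abs_of_nonneg hA0]
    calc |s0| * (A0 * |c - A1|) ≤ 1 * (A0 * E1) :=
          mul_le_mul hs0 (mul_le_mul_of_nonneg_left hc hA0) (by positivity) (by norm_num)
      _ = A0 * E1 := one_mul _
  have h3 : |s1 * (A1 * (a - A0))| ≤ A1 * E0 := by
    rw [abs_mul, abs_mul, abs_of_nonneg hA1]
    calc |s1| * (A1 * |a - A0|) ≤ 1 * (A1 * E0) :=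
          mul_le_mul hs1 (mul_le_mul_of_nonneg_left ha hA1) (by positivity) (by norm_num)
      _ = A1 * E0 := one_mul _
  have h4 : |A1 * (b - s0 * A0)| ≤ A1 * E0 := by
    rw [abs_mul, abs_of_nonneg hA1]
    exact mul_le_mul_of_nonneg_left hb hA1
  have h5 : |(a - A0) * (d - s1 * A1)| ≤ E0 * E1 := by
    rw [abs_mul]
    exact mul_le_mul ha hd (abs_nonneg _) hE0
  have h6 : |(b - s0 * A0) * (c - A1)| ≤ E0 * E1 := by
    rw [abs_mul]
    exact mul_le_mul hb hc (abs_nonneg _) hE0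
  have g1 := abs_sub (A0 * (d - s1 * A1)) (s0 * (A0 * (c - A1)))
  have g2 := abs_sub (s1 * (A1 * (a - A0))) (A1 * (b - s0 * A0))
  have g3 := abs_sub ((a - A0) * (d - s1 * A1)) ((b - s0 * A0) * (c - A1))
  have g4 := abs_add_le ((A0 * (d - s1 * A1) - s0 * (A0 * (c - A1))) + (s1 * (A1 * (a - A0)) -
        A1 * (b - s0 * A0))) ((a - A0) * (d - s1 * A1) - (b - s0 * A0) * (c - A1))
  have g5 := abs_add_le (A0 * (d - s1 * A1) - s0 * (A0 * (c - A1))) (s1 * (A1 * (a - A0)) -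
        A1 * (b - s0 * A0))
  linarith

theorem abs_side (s : K →+* ℂ) (p q : K) : |side s p q| ≤ 1 := by
  unfold side
  split_ifs <;> norm_num

theorem main_nonneg (ht : 5 ≤ ‖s t‖) : 0 ≤ main s t := by
  unfold main
  have h1 : 0 ≤ Real.log (4 * ‖s t‖) := Real.log_nonneg (by linarith)
  have := Real.pi_pos
  positivity

/-- **Two places.** -/
theorem exists_two {s : Fin 2 → (K →+* ℂ)} (hp : ∀ l, Spc (s l) (c * p ^ 2 + t))
    (hq : ∀ l, Spc (s l) (c * q ^ 2 + t)) (ht : ∀ l, 5 ≤ ‖s l t‖) :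
    ∃ Γ : Fin 2 → Torus (POpen (qf c t) (pts p q)) 1,
      (∀ l θ (y : K), (Γ l).e θ (pcst (qf c t) (pts p q) y) = s l y) ∧
      (∀ l, |(Γ l).reg (symb (pent (qf c t) (pts p q) 0 1)) - main (s l) t| ≤ err (s l) t ∧
        |(Γ l).reg (symb (pent (qf c t) (pts p q) 2 3)) - side (s l) p q * main (s l) t| ≤
          err (s l) t) ∧
      |(Matrix.of fun l k : Fin 2 =>
          (Γ l).reg (symb (pent (qf c t) (pts p q) (![0, 2] k) (![1, 3] k)))).det -
        (side (s 1) p q - side (s 0) p q) * (main (s 0) t * main (s 1) t)| ≤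
        2 * (main (s 0) t * err (s 1) t + main (s 1) t * err (s 0) t +
          err (s 0) t * err (s 1) t) := by
  choose Γ h1 h2 h3 using fun l => exists_torus_near (hp l) (hq l) (ht l)
  refine ⟨Γ, h1, fun l => ⟨h2 l, h3 l⟩, ?_⟩
  rw [Matrix.det_fin_two]
  exact det_near (main_nonneg (ht 0)) (main_nonneg (ht 1)) (abs_side _ _ _) (abs_side _ _ _)
    (h2 0) (h3 0) (h2 1) (h3 1)

end Pool.Agent.X321.QF
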